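import Mathlib

/-!
# MP_956764_co : Q2 for the pattern `v = 1` (Thue-Morse colouring)

`e n` is the number of digits `1` in the binary expansion of `n`, that is `e_v(n)` for `v = 1`.
-/

namespace Pool.Agent.Results.MP_956764_co.OddValues

/-- `e_v(n)` for the pattern `v = 1`: the number of digits `1` in the binary expansion. -/
def e (n : ℕ) : ℕ := (Nat.digits 2 n).count 1

/-- `A_v(n, d)` for `v = 1`: the infimum (in `ℕ∞`, so `⊤` if there is none) of the `l ≥ 1` with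
`e (n + l d)` and `e n` of different parity. -/
noncomputable def A (n d : ℕ) : ℕ∞ :=
  sInf {x : ℕ∞ | ∃ l : ℕ, 1 ≤ l ∧ e (n + l * d) % 2 ≠ e n % 2 ∧ x = (l : ℕ∞)}

/-- `A_v(d)` for `v = 1`: the supremum over all `n` of `A_v(n, d)`. -/
noncomputable def Asup (d : ℕ) : ℕ∞ := ⨆ n : ℕ, A n d

/-- the colour as an element of `ZMod 2` -/
def T (n : ℕ) : ZMod 2 := (e n : ZMod 2)

lemma e_two_mul (n : ℕ) : e (2 * n) = e n := by
  rcases Nat.eq_zero_or_pos n with rfl | h
  · rfl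
  · unfold e
    rw [Nat.digits_def' (by norm_num) (by omega)]
    have h1 : (2 * n) % 2 = 0 := by omega
    have h2 : (2 * n) / 2 = n := by omega
    rw [h1, h2]
    simp

lemma e_two_mul_add_one (n : ℕ) : e (2 * n + 1) = e n + 1 := by
  unfold e
  rw [Nat.digits_def' (by norm_num) (by omega)]
  have h1 : (2 * n + 1) % 2 = 1 := by omega
  have h2 : (2 * n + 1) / 2 = n := by omega
  rw [h1, h2]
  simp

lemma T_zero : T 0 = 0 := by simp [T, e]

lemma T_even (n : ℕ) : T (2 * n) = T n := by unfold T; rw [e_two_mul]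

lemma T_odd (n : ℕ) : T (2 * n + 1) = T n + 1 := by
  unfold T; rw [e_two_mul_add_one]; push_cast; rfl

lemma zmod2 (a : ZMod 2) : a + a = 0 := by revert a; decide

lemma T_block (K : ℕ) : ∀ h r : ℕ, r < 2 ^ K → T (h * 2 ^ K + r) = T h + T r := by
  induction K with
  | zero =>
    intro h r hr
    have : r = 0 := by simpa using hr
    subst this
    simp [T_zero]
  | succ K ih =>
    intro h r hr
    have hr' : r / 2 < 2 ^ K := by
      rw [pow_succ] at hr; omega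
    rcases Nat.mod_two_eq_zero_or_one r with h0 | h1
    · have e1 : h * 2 ^ (K + 1) + r = 2 * (h * 2 ^ K + r / 2) := by
        rw [pow_succ]; have : r = 2 * (r / 2) := by omega
        nlinarith [this]
      have e2 : T r = T (r / 2) := by
        conv_lhs => rw [show r = 2 * (r / 2) by omega]
        exact T_even _
      rw [e1, T_even, ih h (r / 2) hr', e2]
    · have e1 : h * 2 ^ (K + 1) + r = 2 * (h * 2 ^ K + r / 2) + 1 := by
        rw [pow_succ]; have : r = 2 * (r / 2) + 1 := by omega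
        nlinarith [this]
      have e2 : T r = T (r / 2) + 1 := by
        conv_lhs => rw [show r = 2 * (r / 2) + 1 by omega]
        exact T_odd _
      rw [e1, T_odd, ih h (r / 2) hr', e2, add_assoc]

/-- difference of neighbouring colours at an odd place -/
lemma D_odd (x : ℕ) (h : x % 2 = 1) : T x = T (x - 1) + 1 := by
  have h1 : x = 2 * (x / 2) + 1 := by omega
  have h2 : x - 1 = 2 * (x / 2) := by omega
  rw [h2, T_even]
  conv_lhs => rw [h1]
  exact T_odd _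

/-- difference of neighbouring colours at a place `≡ 2 mod 4` -/
lemma D_two (x : ℕ) (h : x % 4 = 2) : T x = T (x - 1) := by
  have h1 : x = 2 * (2 * (x / 4) + 1) := by omega
  have h2 : x - 1 = 2 * (2 * (x / 4)) + 1 := by omega
  rw [h2, T_odd, T_even]
  conv_lhs => rw [h1]
  rw [T_even, T_odd]

/-- difference of neighbouring colours at a place `≡ 4 mod 8` -/
lemma D_four (x : ℕ) (h : x % 8 = 4) : T x = T (x - 1) + 1 := by
  have h1 : x = 2 * (2 * (2 * (x / 8) + 1)) := by omega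
  have h2 : x - 1 = 2 * (2 * (2 * (x / 8)) + 1) + 1 := by omega
  rw [h2, T_odd, T_odd, T_even]
  conv_lhs => rw [h1]
  rw [T_even, T_even, T_odd]
  have := zmod2 (1 : ZMod 2)
  rw [add_assoc, add_assoc, this]
  simp

/-- the step by `M - 1`, `M = 2 ^ K`, away from multiples of `M` -/
lemma step (K x : ℕ) (hr : x % 2 ^ K ≠ 0) :
    T (x + (2 ^ K - 1)) = T (x / 2 ^ K + 1) + T (x % 2 ^ K - 1) := by
  have hM : 0 < 2 ^ K := by positivity
  have hx := Nat.div_add_mod x (2 ^ K)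
  have hlt := Nat.mod_lt x hM
  have e1 : x + (2 ^ K - 1) = (x / 2 ^ K + 1) * 2 ^ K + (x % 2 ^ K - 1) := by
    have h3 : (x / 2 ^ K + 1) * 2 ^ K = 2 ^ K * (x / 2 ^ K) + 2 ^ K := by ring
    rw [h3]; omega
  rw [e1, T_block K _ _ (by omega)]

lemma self_block (K x : ℕ) : T x = T (x / 2 ^ K) + T (x % 2 ^ K) := by
  have hM : 0 < 2 ^ K := by positivity
  conv_lhs => rw [← Nat.div_add_mod x (2 ^ K), mul_comm]
  exact T_block K _ _ (Nat.mod_lt x hM)

/-- At an odd place: same colour after the step forces the top blocks to differ in colour. -/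
lemma step_odd (K x : ℕ) (hK : 2 ≤ K) (hx : x % 2 = 1) (h : T (x + (2 ^ K - 1)) = T x) :
    T (x / 2 ^ K + 1) = T (x / 2 ^ K) + 1 := by
  have hd : 4 ∣ 2 ^ K := by
    obtain ⟨j, rfl⟩ := Nat.exists_eq_add_of_le hK
    exact ⟨2 ^ j, by rw [pow_add]; norm_num⟩
  have hmod : x % 2 ^ K % 4 = x % 4 := Nat.mod_mod_of_dvd x hd
  have hr : x % 2 ^ K % 2 = 1 := by omega
  have hr0 : x % 2 ^ K ≠ 0 := by omega
  rw [step K x hr0, self_block K x, D_odd _ hr] at h
  -- T(h+1) + T(r-1) = T h + (T (r-1) + 1)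
  have := zmod2 (T (x % 2 ^ K - 1))
  linear_combination h

/-- At a place `≡ 2 mod 4`: same colour after the step forces the top blocks to agree. -/
lemma step_two (K x : ℕ) (hK : 2 ≤ K) (hx : x % 4 = 2) (h : T (x + (2 ^ K - 1)) = T x) :
    T (x / 2 ^ K + 1) = T (x / 2 ^ K) := by
  have hd : 4 ∣ 2 ^ K := by
    obtain ⟨j, rfl⟩ := Nat.exists_eq_add_of_le hK
    exact ⟨2 ^ j, by rw [pow_add]; norm_num⟩
  have hmod : x % 2 ^ K % 4 = x % 4 := Nat.mod_mod_of_dvd x hd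
  have hr : x % 2 ^ K % 4 = 2 := by omega
  have hr0 : x % 2 ^ K ≠ 0 := by omega
  rw [step K x hr0, self_block K x, D_two _ hr] at h
  linear_combination h

lemma one_ne_zero' : (1 : ZMod 2) ≠ 0 := by decide

/-- Two places in the same top block cannot be one odd and one `≡ 2 mod 4`. -/
lemma clash (K x y : ℕ) (hK : 2 ≤ K) (hx : x % 2 = 1) (hy : y % 4 = 2)
    (h : T (x + (2 ^ K - 1)) = T x) (h' : T (y + (2 ^ K - 1)) = T y) :
    x / 2 ^ K ≠ y / 2 ^ K := by
  intro he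
  have h1 := step_odd K x hK hx h
  have h2 := step_two K y hK hy h'
  rw [he, h2] at h1
  have : (1 : ZMod 2) = 0 := by linear_combination -h1
  exact one_ne_zero' this

/-- Upper bound: no run of `q + 5` equal colours. -/
lemma upper (K q d n : ℕ) (hK : 2 ≤ K) (hq : 5 ≤ q) (hqd : q * d = 2 ^ K - 1) :
    ∃ l, 1 ≤ l ∧ l ≤ q + 4 ∧ T (n + l * d) ≠ T n := by
  by_contra hcon
  push Not at hcon
  have hd4 : 4 ∣ 2 ^ K := by
    obtain ⟨j, rfl⟩ := Nat.exists_eq_add_of_le hK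
    exact ⟨2 ^ j, by rw [pow_add]; norm_num⟩
  have hM : 0 < 2 ^ K := by positivity
  have hall : ∀ j, j ≤ q + 4 → T (n + j * d) = T n := by
    intro j hj
    rcases Nat.eq_zero_or_pos j with rfl | h
    · simp
    · exact hcon j h hj
  have hst : ∀ j, j ≤ 4 → T (n + j * d + (2 ^ K - 1)) = T (n + j * d) := by
    intro j hj
    have e1 : n + j * d + (2 ^ K - 1) = n + (j + q) * d := by
      rw [← hqd]; ring
    rw [e1, hall (j + q) (by omega), hall j (by omega)]
  -- d is odd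
  have hdodd : d % 2 = 1 := by
    have h1 : (q * d) % 2 = 1 := by rw [hqd]; omega
    rw [Nat.mul_mod] at h1
    rcases Nat.mod_two_eq_zero_or_one d with h | h
    · rw [h] at h1; simp at h1
    · exact h
  have h5 : 5 * d ≤ 2 ^ K - 1 := by rw [← hqd]; exact Nat.mul_le_mul_right d hq
  set M := 2 ^ K with hMdef
  have h0 := hst 0 (by omega)
  have h1 := hst 1 (by omega)
  have h2 := hst 2 (by omega)
  have h3 := hst 3 (by omega)
  have h4 := hst 4 (by omega)
  have m01 : (n + 0 * d) / M ≤ (n + 1 * d) / M := Nat.div_le_div_right (by omega)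
  have m12 : (n + 1 * d) / M ≤ (n + 2 * d) / M := Nat.div_le_div_right (by omega)
  have m23 : (n + 2 * d) / M ≤ (n + 3 * d) / M := Nat.div_le_div_right (by omega)
  have m34 : (n + 3 * d) / M ≤ (n + 4 * d) / M := Nat.div_le_div_right (by omega)
  have m04 : (n + 4 * d) / M ≤ (n + 0 * d) / M + 1 := by
    have : (n + 4 * d) / M ≤ (n + 0 * d + M) / M := Nat.div_le_div_right (by omega)
    rwa [Nat.add_div_right _ hM] at this
  have hcl := fun a b (ha : (n + a * d) % 2 = 1) (hb : (n + b * d) % 4 = 2) (ha' : a ≤ 4)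
    (hb' : b ≤ 4) => clash K (n + a * d) (n + b * d) hK ha hb (hst a ha') (hst b hb')
  have c01 := hcl 0 1
  have c21 := hcl 2 1
  have c12 := hcl 1 2
  have c32 := hcl 3 2
  have c23 := hcl 2 3
  have c43 := hcl 4 3
  have c10 := hcl 1 0
  have c34 := hcl 3 4
  rw [← hMdef] at c01 c21 c12 c32 c23 c43 c10 c34
  have key : ((n + 1 * d) % 4 = 2 ∧ (n + 0 * d) % 2 = 1 ∧ (n + 2 * d) % 2 = 1) ∨
      ((n + 2 * d) % 4 = 2 ∧ (n + 1 * d) % 2 = 1 ∧ (n + 3 * d) % 2 = 1) ∨
      ((n + 3 * d) % 4 = 2 ∧ (n + 2 * d) % 2 = 1 ∧ (n + 4 * d) % 2 = 1) ∨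
      ((n + 0 * d) % 4 = 2 ∧ (n + 4 * d) % 4 = 2 ∧ (n + 1 * d) % 2 = 1 ∧ (n + 3 * d) % 2 = 1) := by
    omega
  rcases key with ⟨a, b, c⟩ | ⟨a, b, c⟩ | ⟨a, b, c⟩ | ⟨a, a', b, c⟩
  · have := c01 b a (by norm_num) (by norm_num)
    have := c21 c a (by norm_num) (by norm_num)
    omega
  · have := c12 b a (by norm_num) (by norm_num)
    have := c32 c a (by norm_num) (by norm_num)
    omega
  · have := c23 b a (by norm_num) (by norm_num)
    have := c43 c a (by norm_num) (by norm_num)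
    omega
  · have := c10 b a (by norm_num) (by norm_num)
    have := c34 c a' (by norm_num) (by norm_num)
    omega

/-- the step by `M + 1`, `M = 2 ^ K`, away from the places `≡ -1 mod M` -/
lemma stepP (K x : ℕ) (hr : x % 2 ^ K + 1 < 2 ^ K) :
    T (x + (2 ^ K + 1)) = T (x / 2 ^ K + 1) + T (x % 2 ^ K + 1) := by
  have hx := Nat.div_add_mod x (2 ^ K)
  have e1 : x + (2 ^ K + 1) = (x / 2 ^ K + 1) * 2 ^ K + (x % 2 ^ K + 1) := by
    have h3 : (x / 2 ^ K + 1) * 2 ^ K = 2 ^ K * (x / 2 ^ K) + 2 ^ K := by ring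
    rw [h3]; omega
  rw [e1, T_block K _ _ hr]

lemma stepP_even (K x : ℕ) (hK : 2 ≤ K) (hx : x % 2 = 0) (h : T (x + (2 ^ K + 1)) = T x) :
    T (x / 2 ^ K + 1) = T (x / 2 ^ K) + 1 := by
  have hd : 4 ∣ 2 ^ K := by
    obtain ⟨j, rfl⟩ := Nat.exists_eq_add_of_le hK
    exact ⟨2 ^ j, by rw [pow_add]; norm_num⟩
  have hM : 0 < 2 ^ K := by positivity
  have hlt := Nat.mod_lt x hM
  have hmod : x % 2 ^ K % 4 = x % 4 := Nat.mod_mod_of_dvd x hd
  have hr : (x % 2 ^ K + 1) % 2 = 1 := by omega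
  rw [stepP K x (by omega), self_block K x, D_odd _ hr, Nat.add_sub_cancel] at h
  have h1 := zmod2 (1 : ZMod 2)
  linear_combination h - h1

lemma stepP_one (K x : ℕ) (hK : 2 ≤ K) (hx : x % 4 = 1) (h : T (x + (2 ^ K + 1)) = T x) :
    T (x / 2 ^ K + 1) = T (x / 2 ^ K) := by
  have hd : 4 ∣ 2 ^ K := by
    obtain ⟨j, rfl⟩ := Nat.exists_eq_add_of_le hK
    exact ⟨2 ^ j, by rw [pow_add]; norm_num⟩
  have hM : 0 < 2 ^ K := by positivity
  have hlt := Nat.mod_lt x hM
  have hmod : x % 2 ^ K % 4 = x % 4 := Nat.mod_mod_of_dvd x hd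
  have hr : (x % 2 ^ K + 1) % 4 = 2 := by omega
  rw [stepP K x (by omega), self_block K x, D_two _ hr, Nat.add_sub_cancel] at h
  linear_combination h

lemma clashP (K x y : ℕ) (hK : 2 ≤ K) (hx : x % 2 = 0) (hy : y % 4 = 1)
    (h : T (x + (2 ^ K + 1)) = T x) (h' : T (y + (2 ^ K + 1)) = T y) :
    x / 2 ^ K ≠ y / 2 ^ K := by
  intro he
  have h1 := stepP_even K x hK hx h
  have h2 := stepP_one K y hK hy h'
  rw [he, h2] at h1
  have : (1 : ZMod 2) = 0 := by linear_combination -h1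
  exact one_ne_zero' this

/-- Upper bound in the case `q d = 2 ^ K + 1`. -/
lemma upperP (K q d n : ℕ) (hK : 2 ≤ K) (hq : 5 ≤ q) (hqd : q * d = 2 ^ K + 1) :
    ∃ l, 1 ≤ l ∧ l ≤ q + 4 ∧ T (n + l * d) ≠ T n := by
  by_contra hcon
  push Not at hcon
  have hd4 : 4 ∣ 2 ^ K := by
    obtain ⟨j, rfl⟩ := Nat.exists_eq_add_of_le hK
    exact ⟨2 ^ j, by rw [pow_add]; norm_num⟩
  have hM : 0 < 2 ^ K := by positivity
  have hall : ∀ j, j ≤ q + 4 → T (n + j * d) = T n := by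
    intro j hj
    rcases Nat.eq_zero_or_pos j with rfl | h
    · simp
    · exact hcon j h hj
  have hst : ∀ j, j ≤ 4 → T (n + j * d + (2 ^ K + 1)) = T (n + j * d) := by
    intro j hj
    have e1 : n + j * d + (2 ^ K + 1) = n + (j + q) * d := by
      rw [← hqd]; ring
    rw [e1, hall (j + q) (by omega), hall j (by omega)]
  have hdodd : d % 2 = 1 := by
    have h1 : (q * d) % 2 = 1 := by rw [hqd]; omega
    rw [Nat.mul_mod] at h1
    rcases Nat.mod_two_eq_zero_or_one d with h | h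
    · rw [h] at h1; simp at h1
    · exact h
  have h5 : 5 * d ≤ 2 ^ K + 1 := by rw [← hqd]; exact Nat.mul_le_mul_right d hq
  set M := 2 ^ K with hMdef
  have h0 := hst 0 (by omega)
  have m01 : (n + 0 * d) / M ≤ (n + 1 * d) / M := Nat.div_le_div_right (by omega)
  have m12 : (n + 1 * d) / M ≤ (n + 2 * d) / M := Nat.div_le_div_right (by omega)
  have m23 : (n + 2 * d) / M ≤ (n + 3 * d) / M := Nat.div_le_div_right (by omega)
  have m34 : (n + 3 * d) / M ≤ (n + 4 * d) / M := Nat.div_le_div_right (by omega)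
  have m04 : (n + 4 * d) / M ≤ (n + 0 * d) / M + 1 := by
    have : (n + 4 * d) / M ≤ (n + 0 * d + M) / M := Nat.div_le_div_right (by omega)
    rwa [Nat.add_div_right _ hM] at this
  have hcl := fun a b (ha : (n + a * d) % 2 = 0) (hb : (n + b * d) % 4 = 1) (ha' : a ≤ 4)
    (hb' : b ≤ 4) => clashP K (n + a * d) (n + b * d) hK ha hb (hst a ha') (hst b hb')
  have c01 := hcl 0 1
  have c21 := hcl 2 1
  have c12 := hcl 1 2
  have c32 := hcl 3 2
  have c23 := hcl 2 3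
  have c43 := hcl 4 3
  have c10 := hcl 1 0
  have c34 := hcl 3 4
  rw [← hMdef] at c01 c21 c12 c32 c23 c43 c10 c34
  have key : ((n + 1 * d) % 4 = 1 ∧ (n + 0 * d) % 2 = 0 ∧ (n + 2 * d) % 2 = 0) ∨
      ((n + 2 * d) % 4 = 1 ∧ (n + 1 * d) % 2 = 0 ∧ (n + 3 * d) % 2 = 0) ∨
      ((n + 3 * d) % 4 = 1 ∧ (n + 2 * d) % 2 = 0 ∧ (n + 4 * d) % 2 = 0) ∨
      ((n + 0 * d) % 4 = 1 ∧ (n + 4 * d) % 4 = 1 ∧ (n + 1 * d) % 2 = 0 ∧ (n + 3 * d) % 2 = 0) := by
    omega
  rcases key with ⟨a, b, c⟩ | ⟨a, b, c⟩ | ⟨a, b, c⟩ | ⟨a, a', b, c⟩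
  · have := c01 b a (by norm_num) (by norm_num)
    have := c21 c a (by norm_num) (by norm_num)
    omega
  · have := c12 b a (by norm_num) (by norm_num)
    have := c32 c a (by norm_num) (by norm_num)
    omega
  · have := c23 b a (by norm_num) (by norm_num)
    have := c43 c a (by norm_num) (by norm_num)
    omega
  · have := c10 b a (by norm_num) (by norm_num)
    have := c34 c a' (by norm_num) (by norm_num)
    omega

/-- Lower bound: a run of `q + 4` equal colours. -/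
lemma lower (k q m : ℕ) (hk : 2 ≤ k) (hq : 5 ≤ q) (hm : 9 ≤ m) (hqm : q * m = 2 ^ k - 1) :
    ∃ n, ∀ l, 1 ≤ l → l ≤ q + 3 → T (n + l * (m * (2 ^ k + 1))) = T n := by
  have hd4 : 4 ∣ 2 ^ k := by
    obtain ⟨j, rfl⟩ := Nat.exists_eq_add_of_le hk
    exact ⟨2 ^ j, by rw [pow_add]; norm_num⟩
  have hMM : (2 : ℕ) ^ (2 * k) = 2 ^ k * 2 ^ k := by rw [two_mul, pow_add]
  have hN : 0 < 2 ^ k := by positivity
  have hmodd : m % 2 = 1 := by
    have h1 : (q * m) % 2 = 1 := by rw [hqm]; omega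
    rw [Nat.mul_mod] at h1
    rcases Nat.mod_two_eq_zero_or_one m with h | h
    · rw [h] at h1; simp at h1
    · exact h
  have h5 : 5 * m ≤ 2 ^ k - 1 := by rw [← hqm]; exact Nat.mul_le_mul_right m hq
  obtain ⟨z, hz8, hz1, hz2⟩ : ∃ z, z % 8 = 4 ∧ m ≤ z ∧ z ≤ m + 7 := by
    refine ⟨m + (12 - m % 8) % 8, ?_, ?_, ?_⟩ <;> omega
  set N := 2 ^ k with hNdef
  have hN2 : N % 2 = 0 := by omega
  obtain ⟨w, hw⟩ : ∃ w, w + z = 2 * m := ⟨2 * m - z, by omega⟩
  have hw1 : 1 ≤ w := by omega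
  have hwm : w ≤ m := by omega
  have hw4 : w % 4 = 2 := by omega
  have hwN : w + 1 ≤ N := by omega
  have hdouble : ∀ y, y < N → T (y * (N + 1)) = 0 := by
    intro y hy
    have e1 : y * (N + 1) = y * 2 ^ k + y := by rw [← hNdef]; ring
    rw [e1, T_block k y y (by rw [← hNdef]; exact hy)]
    exact zmod2 _
  have hlt : ∀ y, y < N → y * (N + 1) < 2 ^ (2 * k) := by
    intro y hy
    rw [hMM]
    have : y + 1 ≤ N := hy
    nlinarith
  have T1 : T 1 = 1 := by have := T_odd 0; simpa [T_zero] using this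
  have T2 : T 2 = 1 := by have := T_even 1; simpa [T1] using this
  have T3 : T 3 = 0 := by
    have := T_odd 1
    rw [T1] at this
    simpa [zmod2 1] using this
  -- the starting point
  obtain ⟨g, hg⟩ : ∃ g, g + w + 1 = N := ⟨N - (w + 1), by omega⟩
  have hn0 : (1 : ℕ) * 2 ^ (2 * k) + (g * 2 ^ k + (g + 1)) + w * (N + 1) = 2 * 2 ^ (2 * k) := by
    rw [hMM, ← hNdef]
    have hg' : N = g + w + 1 := hg.symm
    rw [hg']; ring
  have hTn : T (1 * 2 ^ (2 * k) + (g * 2 ^ k + (g + 1))) = 1 := by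
    rw [T_block (2 * k) _ _ (by rw [hMM, ← hNdef]; nlinarith), T_block k _ _ (by omega)]
    have : T (g + 1) = T g := by
      have := D_two (g + 1) (by omega)
      simpa using this
    rw [this, T1, zmod2]
    simp
  refine ⟨1 * 2 ^ (2 * k) + (g * 2 ^ k + (g + 1)), ?_⟩
  intro l hl1 hl2
  rw [hTn]
  have hlm : w ≤ l * m := le_trans hwm (Nat.le_mul_of_pos_left m hl1)
  obtain ⟨y, hy⟩ : ∃ y, y + w = l * m := ⟨l * m - w, by omega⟩
  have e1 : 1 * 2 ^ (2 * k) + (g * 2 ^ k + (g + 1)) + l * (m * (N + 1)) =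
      2 * 2 ^ (2 * k) + y * (N + 1) := by
    have : l * (m * (N + 1)) = (y + w) * (N + 1) := by rw [hy]; ring
    rw [this, ← hn0]; ring
  rw [e1]
  rcases Nat.lt_or_ge q l with hql | hql
  · -- l = q + i, i = 1, 2, 3
    obtain ⟨i, rfl⟩ := Nat.exists_eq_add_of_lt hql
    -- l = q + i + 1
    have hi : i ≤ 2 := by omega
    obtain ⟨u, hu⟩ : ∃ u, u + w = (i + 1) * m := ⟨(i + 1) * m - w, by
      have : m ≤ (i + 1) * m := Nat.le_mul_of_pos_left m (by omega)
      omega⟩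
    have hyu : y = (N - 1) + u := by
      have : (q + i + 1) * m = q * m + (i + 1) * m := by ring
      rw [this, hqm] at hy
      omega
    have hu3 : u < N := by
      have : (i + 1) * m ≤ 3 * m := Nat.mul_le_mul_right m (by omega)
      omega
    have hcase : u % 2 = 1 ∨ u % 8 = 4 := by
      have hi' : i = 0 ∨ i = 1 ∨ i = 2 := by omega
      rcases hi' with rfl | rfl | rfl
      · left; omega
      · right; omega
      · left; omega
    have hu0 : 1 ≤ u := by omega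
    have hpos : 1 ≤ u * (N + 1) := Nat.mul_pos hu0 (by omega)
    have e2 : 2 * 2 ^ (2 * k) + y * (N + 1) = 3 * 2 ^ (2 * k) + (u * (N + 1) - 1) := by
      rw [hyu, hMM]
      obtain ⟨N', hN'⟩ : ∃ N', N = N' + 1 := ⟨N - 1, by omega⟩
      rw [hN'] at hpos ⊢
      have : (N' + 1 - 1 + u) * (N' + 1 + 1) + 1 = (N' + 1) * (N' + 1) + u * (N' + 1 + 1) := by
        simp only [Nat.add_sub_cancel]; ring
      omega
    rw [e2, T_block (2 * k) _ _ (by have := hlt u hu3; omega), T3, zero_add]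
    have hz := hdouble u hu3
    have hD : T (u * (N + 1)) = T (u * (N + 1) - 1) + 1 := by
      rcases hcase with h | h
      · apply D_odd
        rw [Nat.mul_mod, h]
        omega
      · apply D_four
        obtain ⟨a, ha⟩ : ∃ a, u = 8 * a + 4 := ⟨u / 8, by omega⟩
        obtain ⟨b, hb⟩ : ∃ b, N = 2 * b := ⟨N / 2, by omega⟩
        rw [ha, hb]
        have : (8 * a + 4) * (2 * b + 1) = 8 * (a * (2 * b + 1) + b) + 4 := by ring
        rw [this]; omega
    rw [hz] at hD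
    have h2 := zmod2 (1 : ZMod 2)
    linear_combination -hD - h2
  · have hyN : y < N := by
      have : l * m ≤ q * m := Nat.mul_le_mul_right m hql
      rw [hqm] at this
      omega
    rw [T_block (2 * k) _ _ (hlt y hyN), hdouble y hyN, T2]
    simp

lemma parity_iff (a b : ℕ) : e a % 2 ≠ e b % 2 ↔ T a ≠ T b := by
  unfold T
  rw [Ne, Ne, ZMod.natCast_eq_natCast_iff']

lemma A_le {n d l : ℕ} (h1 : 1 ≤ l) (h : T (n + l * d) ≠ T n) : A n d ≤ (l : ℕ∞) := by
  unfold A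
  exact sInf_le ⟨l, h1, (parity_iff _ _).2 h, rfl⟩

lemma le_A {n d L : ℕ} (h : ∀ l, 1 ≤ l → l < L → T (n + l * d) = T n) : (L : ℕ∞) ≤ A n d := by
  unfold A
  apply le_sInf
  rintro x ⟨l, h1, h2, rfl⟩
  rw [parity_iff] at h2
  by_contra hlt
  push Not at hlt
  exact h2 (h l h1 (by exact_mod_cast hlt))

lemma Asup_eq {d L : ℕ} (hup : ∀ n, ∃ l, 1 ≤ l ∧ l ≤ L ∧ T (n + l * d) ≠ T n)
    (hlo : ∃ n, ∀ l, 1 ≤ l → l < L → T (n + l * d) = T n) : Asup d = (L : ℕ∞) := by
  apply le_antisymm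
  · unfold Asup
    apply iSup_le
    intro n
    obtain ⟨l, h1, h2, h3⟩ := hup n
    exact le_trans (A_le h1 h3) (by exact_mod_cast h2)
  · obtain ⟨n, hn⟩ := hlo
    unfold Asup
    exact le_trans (le_A hn) (le_iSup (fun n => A n d) n)

/-- The family: `A_1((4^k - 1)/q) = q + 4`. -/
lemma family (k q m : ℕ) (hk : 2 ≤ k) (hq : 5 ≤ q) (hm : 9 ≤ m) (hqm : q * m = 2 ^ k - 1) :
    Asup (m * (2 ^ k + 1)) = ((q + 4 : ℕ) : ℕ∞) := by
  apply Asup_eq
  · intro n
    apply upper (2 * k) q _ n (by omega) hq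
    rw [← mul_assoc, hqm, two_mul, pow_add]
    have : 0 < 2 ^ k := by positivity
    obtain ⟨N', hN'⟩ : ∃ N', 2 ^ k = N' + 1 := ⟨2 ^ k - 1, by omega⟩
    rw [hN']
    simp only [Nat.add_sub_cancel]
    have : (N' + 1) * (N' + 1) = N' * (N' + 1 + 1) + 1 := by ring
    omega
  · obtain ⟨n, hn⟩ := lower k q m hk hq hm hqm
    exact ⟨n, fun l h1 h2 => hn l h1 (by omega)⟩

/-- recursion for the colour -/
lemma T_rec (n : ℕ) : T n = T (n / 2) + ((n % 2 : ℕ) : ZMod 2) := by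
  rcases Nat.mod_two_eq_zero_or_one n with h | h
  · conv_lhs => rw [show n = 2 * (n / 2) by omega]
    rw [T_even, h]; simp
  · conv_lhs => rw [show n = 2 * (n / 2) + 1 by omega]
    rw [T_odd, h]; simp

/-- a computable form of the colour, for `n < 2 ^ f` -/
def P : ℕ → ℕ → ℕ
  | 0, _ => 0
  | f + 1, n => (P f (n / 2) + n % 2) % 2

lemma T_eq_P (f : ℕ) : ∀ n, n < 2 ^ f → T n = ((P f n : ℕ) : ZMod 2) := by
  induction f with
  | zero =>
    intro n hn
    have : n = 0 := by simpa using hn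
    subst this
    simp [P, T_zero]
  | succ f ih =>
    intro n hn
    have : n / 2 < 2 ^ f := by rw [pow_succ] at hn; omega
    rw [T_rec n, ih (n / 2) this]
    simp [P]

lemma P_lt (f : ℕ) : ∀ n, P f n < 2 := by
  cases f with
  | zero => intro n; simp [P]
  | succ f => intro n; simp only [P]; omega

lemma cast_inj {a b : ℕ} (ha : a < 2) (hb : b < 2) (h : (a : ZMod 2) = (b : ZMod 2)) : a = b := by
  rw [ZMod.natCast_eq_natCast_iff'] at h
  omega

lemma small (K d L : ℕ) (hd : L * d < 2 ^ K)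
    (hup : ∀ r, r < 2 ^ K → ∀ ε, ε < 2 → ∃ l, l < L + 1 ∧ 1 ≤ l ∧
      (if r + l * d < 2 ^ K then P K (r + l * d) ≠ P K r
        else (ε + P K (r + l * d - 2 ^ K)) % 2 ≠ P K r))
    (n₀ : ℕ) (hn : n₀ + L * d < 2 ^ K)
    (hlo : ∀ l, l < L → P K (n₀ + l * d) = P K n₀) : Asup d = (L : ℕ∞) := by
  apply Asup_eq
  · intro n
    have hM : 0 < 2 ^ K := by positivity
    have hlt := Nat.mod_lt n hM
    -- the colour change of the top block
    obtain ⟨ε, hε, hεT⟩ : ∃ ε : ℕ, ε < 2 ∧ T (n / 2 ^ K + 1) = T (n / 2 ^ K) + (ε : ZMod 2) := by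
      have key : ∀ a b : ZMod 2, ∃ ε : ℕ, ε < 2 ∧ a = b + (ε : ZMod 2) := by
        intro a b
        refine ⟨(a - b).val, ZMod.val_lt _, ?_⟩
        rw [ZMod.natCast_zmod_val]; ring
      exact key _ _
    obtain ⟨l, hl1, hl2, hl⟩ := hup (n % 2 ^ K) hlt ε hε
    refine ⟨l, hl2, by omega, ?_⟩
    intro hEq
    have hld : l * d ≤ L * d := Nat.mul_le_mul_right d (by omega)
    have hn' : n = n / 2 ^ K * 2 ^ K + n % 2 ^ K := by
      rw [mul_comm]; exact (Nat.div_add_mod n (2 ^ K)).symm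
    have hTn : T n = T (n / 2 ^ K) + T (n % 2 ^ K) := self_block K n
    split_ifs at hl with hc
    · have e1 : n + l * d = n / 2 ^ K * 2 ^ K + (n % 2 ^ K + l * d) := by omega
      rw [e1, T_block K _ _ hc, hTn, T_eq_P K _ hc, T_eq_P K _ hlt] at hEq
      exact hl (cast_inj (P_lt _ _) (P_lt _ _) (by linear_combination hEq))
    · have e1 : n + l * d = (n / 2 ^ K + 1) * 2 ^ K + (n % 2 ^ K + l * d - 2 ^ K) := by
        have : (n / 2 ^ K + 1) * 2 ^ K = n / 2 ^ K * 2 ^ K + 2 ^ K := by ring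
        rw [this]; omega
      have hc' : n % 2 ^ K + l * d - 2 ^ K < 2 ^ K := by omega
      rw [e1, T_block K _ _ hc', hTn, hεT, T_eq_P K _ hc', T_eq_P K _ hlt] at hEq
      apply hl
      apply cast_inj (Nat.mod_lt _ (by norm_num)) (P_lt _ _)
      rw [ZMod.natCast_mod]
      push_cast
      linear_combination hEq
  · refine ⟨n₀, ?_⟩
    intro l hl1 hl2
    have hld : l * d ≤ L * d := Nat.mul_le_mul_right d (by omega)
    rw [T_eq_P K _ (by omega), T_eq_P K n₀ (by omega), hlo l hl2]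

lemma five : Asup 19 = ((5 : ℕ) : ℕ∞) := by
  apply small 7 19 5 (by norm_num) (by decide +kernel) 20 (by norm_num) (by decide +kernel)

lemma seven : Asup 37 = ((7 : ℕ) : ℕ∞) := by
  apply small 9 37 7 (by norm_num) (by decide +kernel) 94 (by norm_num) (by decide +kernel)

/-! ### No value `1` or `3` -/

lemma T_compl (K : ℕ) : ∀ y z : ℕ, y + z + 1 = 2 ^ K → T z = (K : ZMod 2) + T y := by
  induction K with
  | zero =>
    intro y z h
    have h1 : y = 0 := by simp at h; omega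
    have h2 : z = 0 := by simp at h; omega
    subst h1; subst h2
    simp
  | succ K ih =>
    intro y z h
    rw [pow_succ] at h
    rcases Nat.mod_two_eq_zero_or_one y with hy | hy
    · have hz : z % 2 = 1 := by omega
      have := ih (y / 2) (z / 2) (by omega)
      rw [T_rec z, T_rec y, this, hy, hz]
      push_cast; ring
    · have hz : z % 2 = 0 := by omega
      have := ih (y / 2) (z / 2) (by omega)
      rw [T_rec z, T_rec y, this, hy, hz]
      push_cast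
      have h2 := zmod2 (1 : ZMod 2)
      linear_combination -h2

lemma two_cases (a : ZMod 2) : a = 0 ∨ a = 1 := by revert a; decide

lemma TT0 : T 0 = 0 := T_zero
lemma TT1 : T 1 = 1 := by have := T_odd 0; simpa [T_zero] using this
lemma TT2 : T 2 = 1 := by have := T_even 1; simpa [TT1] using this

/-- a neighbouring pair of blocks with prescribed colour change -/
lemma pick (a : ZMod 2) : ∃ h : ℕ, T (h + 1) = T h + a := by
  rcases two_cases a with rfl | rfl
  · exact ⟨1, by rw [TT1]; simpa using TT2⟩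
  · exact ⟨0, by rw [TT0]; simpa using TT1⟩

lemma run13 (d s : ℕ) (hs : s < d) (h1 : T (s + d) = T s) (h2 : T (s + 2 * d) = T s) :
    ∃ n, T (n + d) = T n ∧ T (n + 2 * d) = T n ∧ T (n + 3 * d) = T n := by
  obtain ⟨K, hK⟩ : ∃ K, 3 * d < 2 ^ K := ⟨3 * d, Nat.lt_two_pow_self⟩
  obtain ⟨r, hr⟩ : ∃ r, r + d = 2 ^ K + s := ⟨2 ^ K + s - d, by omega⟩
  obtain ⟨h, hh⟩ := pick (T r + T s)
  have hr' : r < 2 ^ K := by omega
  have e0 : T (h * 2 ^ K + r) = T h + T r := T_block K h r hr'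
  have key : ∀ t, t < 2 ^ K → T ((h + 1) * 2 ^ K + t) = T h + T r + T s + T t := by
    intro t ht
    rw [T_block K _ _ ht, hh]; ring
  have hmul : (h + 1) * 2 ^ K = h * 2 ^ K + 2 ^ K := by ring
  have e1 : h * 2 ^ K + r + d = (h + 1) * 2 ^ K + s := by rw [hmul]; omega
  have e2 : h * 2 ^ K + r + 2 * d = (h + 1) * 2 ^ K + (s + d) := by rw [hmul]; omega
  have e3 : h * 2 ^ K + r + 3 * d = (h + 1) * 2 ^ K + (s + 2 * d) := by rw [hmul]; omega
  have hz := zmod2 (T s)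
  refine ⟨h * 2 ^ K + r, ?_, ?_, ?_⟩
  · rw [e1, key s (by omega), e0]; linear_combination hz
  · rw [e2, key _ (by omega), e0, h1]; linear_combination hz
  · rw [e3, key _ (by omega), e0, h2]; linear_combination hz

lemma run22 (d s s' : ℕ) (hs : s + s' + 1 = d) (h1 : T (s + d) = T s)
    (h2 : T (s' + d) = T s') :
    ∃ n, T (n + d) = T n ∧ T (n + 2 * d) = T n ∧ T (n + 3 * d) = T n := by
  obtain ⟨K, hK⟩ : ∃ K, 3 * d < 2 ^ K := ⟨3 * d, Nat.lt_two_pow_self⟩
  obtain ⟨r, hr⟩ : ∃ r, r + 2 * d = 2 ^ K + s := ⟨2 ^ K + s - 2 * d, by omega⟩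
  have c1 : T (r + d) = (K : ZMod 2) + T s' := T_compl K s' (r + d) (by omega)
  have c0 : T r = (K : ZMod 2) + T (s' + d) := T_compl K (s' + d) r (by omega)
  obtain ⟨h, hh⟩ := pick (T r + T s)
  have e0 : T (h * 2 ^ K + r) = T h + T r := T_block K h r (by omega)
  have e1 : T (h * 2 ^ K + (r + d)) = T h + T (r + d) := T_block K h (r + d) (by omega)
  have key : ∀ t, t < 2 ^ K → T ((h + 1) * 2 ^ K + t) = T h + T r + T s + T t := by
    intro t ht
    rw [T_block K _ _ ht, hh]; ring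
  have hmul : (h + 1) * 2 ^ K = h * 2 ^ K + 2 ^ K := by ring
  have e2 : h * 2 ^ K + r + 2 * d = (h + 1) * 2 ^ K + s := by rw [hmul]; omega
  have e3 : h * 2 ^ K + r + 3 * d = (h + 1) * 2 ^ K + (s + d) := by rw [hmul]; omega
  have hz := zmod2 (T s)
  refine ⟨h * 2 ^ K + r, ?_, ?_, ?_⟩
  · rw [add_assoc, e1, e0, c1, c0, h2]
  · rw [e2, key s (by omega), e0]; linear_combination hz
  · rw [e3, key _ (by omega), e0, h1]; linear_combination hz

/-- For every odd `d ≥ 3` there is a monochromatic progression of length four. -/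
lemma four (c : ℕ) (hc : 1 ≤ c) :
    ∃ n, T (n + (2 * c + 1)) = T n ∧ T (n + 2 * (2 * c + 1)) = T n ∧
      T (n + 3 * (2 * c + 1)) = T n := by
  have o11 := zmod2 (1 : ZMod 2)
  have TT3 : T 3 = 0 := by have := T_odd 1; rw [TT1] at this; rw [this]; exact o11
  have TT5 : T 5 = 0 := by have := T_odd 2; rw [TT2] at this; rw [this]; exact o11
  have TT7 : T 7 = 1 := by have := T_odd 3; rw [TT3] at this; simpa using this
  have TT10 : T 10 = 0 := by have := T_even 5; rw [TT5] at this; exact this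
  rcases two_cases (T c) with h0 | h0
  swap
  · -- T c = 1
    apply run13 _ 0 (by omega)
    · rw [Nat.zero_add, T_odd, h0, TT0, o11]
    · rw [Nat.zero_add, T_even, T_odd, h0, TT0, o11]
  rcases two_cases (T (c + 1)) with h1 | h1
  · -- T (c + 1) = 0 : s = 2
    apply run22 _ 2 (2 * c - 2) (by omega)
    · rw [show 2 + (2 * c + 1) = 2 * (c + 1) + 1 by ring, T_odd, h1, TT2]; simp
    · rw [show 2 * c - 2 + (2 * c + 1) = 2 * (2 * (c - 1) + 1) + 1 by omega, T_odd, T_odd,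
        show 2 * c - 2 = 2 * (c - 1) by omega, T_even, add_assoc, o11, add_zero]
  -- c ≥ 2
  have hc2 : 2 ≤ c := by
    rcases Nat.lt_or_ge c 2 with h | h
    · have : c = 1 := by omega
      subst this
      rw [TT1] at h0
      exact absurd h0 one_ne_zero'
    · exact h
  rcases two_cases (T (c - 1)) with h2 | h2
  swap
  · -- T (c - 1) = 1 : s = 1
    apply run22 _ 1 (2 * c - 1) (by omega)
    · rw [show 1 + (2 * c + 1) = 2 * (c + 1) by ring, T_even, h1, TT1]
    · rw [show 2 * c - 1 + (2 * c + 1) = 2 * (2 * c) by omega, T_even, T_even, h0,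
        show 2 * c - 1 = 2 * (c - 1) + 1 by omega, T_odd, h2, o11]
  rcases two_cases (T (c + 2)) with h3 | h3
  · -- s = 3, pattern 1 | 3
    apply run13 _ 3 (by omega)
    · rw [show 3 + (2 * c + 1) = 2 * (c + 2) by ring, T_even, h3, TT3]
    · rw [show 3 + 2 * (2 * c + 1) = 2 * (2 * (c + 1)) + 1 by ring, T_odd, T_even, h1, TT3, o11]
  -- now c is even
  have hce : c % 2 = 0 := by
    rcases Nat.mod_two_eq_zero_or_one c with h | h
    · exact h
    · have := D_odd c h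
      rw [h0, h2] at this
      exact absurd this.symm (by simp)
  obtain ⟨e', he⟩ : ∃ e', c = 2 * e' := ⟨c / 2, by omega⟩
  have E1 : T (e' + 1) = 1 := by
    rw [show c + 2 = 2 * (e' + 1) by omega, T_even] at h3; exact h3
  have E0 : T e' = 0 := by rw [he, T_even] at h0; exact h0
  have he3 : 3 ≤ e' := by
    by_contra hlt
    have : e' = 1 ∨ e' = 2 := by omega
    rcases this with rfl | rfl
    · rw [TT1] at E0; exact one_ne_zero' E0
    · rw [TT2] at E0; exact one_ne_zero' E0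
  have Em : T (e' - 1) = 1 := by
    rw [show c - 1 = 2 * (e' - 1) + 1 by omega, T_odd] at h2
    linear_combination h2 - o11
  rcases two_cases (T (e' + 2)) with h4 | h4
  · -- s = 10, pattern 1 | 3
    apply run13 _ 10 (by omega)
    · rw [show 10 + (2 * c + 1) = 2 * (2 * (e' + 2) + 1) + 1 by omega, T_odd, T_odd, h4, TT10,
        add_assoc, o11, add_zero]
    · rw [show 10 + 2 * (2 * c + 1) = 2 * (2 * (2 * (e' + 1) + 1)) by omega, T_even, T_even,
        T_odd, E1, TT10, o11]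
  rcases two_cases (T (e' - 2)) with h5 | h5
  · -- s = 5
    apply run22 _ 5 (2 * c - 5) (by omega)
    · rw [show 5 + (2 * c + 1) = 2 * (2 * (e' + 1) + 1) by omega, T_even, T_odd, E1, TT5, o11]
    · rw [show 2 * c - 5 + (2 * c + 1) = 2 * (2 * (2 * (e' - 1) + 1)) by omega, T_even, T_even,
        T_odd, Em, show 2 * c - 5 = 2 * (2 * (e' - 2) + 1) + 1 by omega, T_odd, T_odd, h5]
      simp
  · -- s = 7
    apply run22 _ 7 (2 * c - 7) (by omega)
    · rw [show 7 + (2 * c + 1) = 2 * (2 * (e' + 2)) by omega, T_even, T_even, h4, TT7]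
    · rw [show 2 * c - 7 + (2 * c + 1) = 2 * (2 * (2 * (e' - 1)) + 1) by omega, T_even, T_odd,
        T_even, Em, show 2 * c - 7 = 2 * (2 * (e' - 2)) + 1 by omega, T_odd, T_even, h5]

/-- doubling the difference does not change the value -/
lemma run_two_pow (i : ℕ) : ∀ d L : ℕ, (∃ n, ∀ l, 1 ≤ l → l < L → T (n + l * d) = T n) →
    ∃ n, ∀ l, 1 ≤ l → l < L → T (n + l * (2 ^ i * d)) = T n := by
  intro d L ⟨n, hn⟩
  refine ⟨n * 2 ^ i, ?_⟩
  intro l h1 h2
  have hp : 0 < 2 ^ i := by positivity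
  have e1 : n * 2 ^ i + l * (2 ^ i * d) = (n + l * d) * 2 ^ i + 0 := by ring
  have e2 : n * 2 ^ i = n * 2 ^ i + 0 := by ring
  rw [e1, T_block i _ 0 hp, hn l h1 h2]
  conv_rhs => rw [e2, T_block i _ 0 hp]

lemma Asup_ge {d L : ℕ} (hlo : ∃ n, ∀ l, 1 ≤ l → l < L → T (n + l * d) = T n) :
    (L : ℕ∞) ≤ Asup d := by
  obtain ⟨n, hn⟩ := hlo
  unfold Asup
  exact le_trans (le_A hn) (le_iSup (fun n => A n d) n)

lemma Asup_two_pow (i : ℕ) : Asup (2 ^ i) = ((2 : ℕ) : ℕ∞) := by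
  have hp : 0 < 2 ^ i := by positivity
  apply Asup_eq
  · intro n
    by_contra hcon
    push Not at hcon
    have h1 := hcon 1 le_rfl (by norm_num)
    have h2 := hcon 2 (by norm_num) le_rfl
    have hlt := Nat.mod_lt n hp
    have hn : n = n / 2 ^ i * 2 ^ i + n % 2 ^ i := by
      rw [mul_comm]; exact (Nat.div_add_mod n (2 ^ i)).symm
    have e0 : T n = T (n / 2 ^ i) + T (n % 2 ^ i) := self_block i n
    have e1 : T (n + 1 * 2 ^ i) = T (n / 2 ^ i + 1) + T (n % 2 ^ i) := by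
      rw [← T_block i _ _ hlt]; congr 1
      have : (n / 2 ^ i + 1) * 2 ^ i = n / 2 ^ i * 2 ^ i + 2 ^ i := by ring
      rw [this]; omega
    have e2 : T (n + 2 * 2 ^ i) = T (n / 2 ^ i + 2) + T (n % 2 ^ i) := by
      rw [← T_block i _ _ hlt]; congr 1
      have : (n / 2 ^ i + 2) * 2 ^ i = n / 2 ^ i * 2 ^ i + 2 * 2 ^ i := by ring
      rw [this]; omega
    rw [e1, e0] at h1
    rw [e2, e0] at h2
    have h1' : T (n / 2 ^ i + 1) = T (n / 2 ^ i) := by linear_combination h1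
    have h2' : T (n / 2 ^ i + 2) = T (n / 2 ^ i) := by linear_combination h2
    clear hcon h1 h2 hlt hn e0 e1 e2
    generalize n / 2 ^ i = x at h1' h2'
    rcases Nat.mod_two_eq_zero_or_one x with h | h
    · have := D_odd (x + 1) (by omega)
      rw [Nat.add_sub_cancel, h1'] at this
      exact one_ne_zero' (by linear_combination -this)
    · have := D_odd (x + 2) (by omega)
      rw [show x + 2 - 1 = x + 1 by omega, h1', h2'] at this
      exact one_ne_zero' (by linear_combination -this)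
  · have := run_two_pow i 1 2 ⟨1, fun l h1 h2 => by
      have : l = 1 := by omega
      subst this
      rw [TT1]; simpa using TT2⟩
    simpa using this

/-- Dichotomy: `A_1(d) = 2` for powers of two, `A_1(d) ≥ 4` for all other `d`. -/
lemma dichotomy (d : ℕ) (hd : 1 ≤ d) :
    ((∃ i, d = 2 ^ i) ∧ Asup d = ((2 : ℕ) : ℕ∞)) ∨ ((4 : ℕ) : ℕ∞) ≤ Asup d := by
  obtain ⟨i, m, hm, rfl⟩ := Nat.exists_eq_two_pow_mul_odd (show d ≠ 0 by omega)
  obtain ⟨c, hc⟩ := hm
  rcases Nat.eq_zero_or_pos c with h0 | h0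
  · left
    subst h0
    have : m = 1 := by omega
    subst this
    exact ⟨⟨i, by ring⟩, by rw [mul_one]; exact Asup_two_pow i⟩
  · right
    apply Asup_ge
    apply run_two_pow
    obtain ⟨n, h1, h2, h3⟩ := four c h0
    refine ⟨n, fun l hl1 hl2 => ?_⟩
    rw [hc]
    have : l = 1 ∨ l = 2 ∨ l = 3 := by omega
    rcases this with rfl | rfl | rfl
    · rw [one_mul]; exact h1
    · exact h2
    · exact h3

/-- Lower bound in the second family: `q c = 2 ^ k + 1`, `d = c (2 ^ k - 1)`. -/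
lemma lowerP (k q c : ℕ) (hk : 2 ≤ k) (hq : 5 ≤ q) (hc : 9 ≤ c) (hqc : q * c = 2 ^ k + 1) :
    ∃ n, ∀ l, 1 ≤ l → l ≤ q + 3 → T (n + l * (c * (2 ^ k - 1))) = T n := by
  have hd4 : 4 ∣ 2 ^ k := by
    obtain ⟨j, rfl⟩ := Nat.exists_eq_add_of_le hk
    exact ⟨2 ^ j, by rw [pow_add]; norm_num⟩
  have hMM : (2 : ℕ) ^ (2 * k) = 2 ^ k * 2 ^ k := by rw [two_mul, pow_add]
  have hN : 0 < 2 ^ k := by positivity
  have hcodd : c % 2 = 1 := by
    have h1 : (q * c) % 2 = 1 := by rw [hqc]; omega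
    rw [Nat.mul_mod] at h1
    rcases Nat.mod_two_eq_zero_or_one c with h | h
    · rw [h] at h1; simp at h1
    · exact h
  have h5 : 5 * c ≤ 2 ^ k + 1 := by rw [← hqc]; exact Nat.mul_le_mul_right c hq
  obtain ⟨z, hz8, hz1, hz2⟩ : ∃ z, z % 8 = 4 ∧ c ≤ z ∧ z ≤ c + 7 := by
    refine ⟨c + (12 - c % 8) % 8, ?_, ?_, ?_⟩ <;> omega
  obtain ⟨N', hN'⟩ : ∃ N', 2 ^ k = N' + 1 := ⟨2 ^ k - 1, by omega⟩
  have hsub : 2 ^ k - 1 = N' := by omega
  rw [hsub]
  have hN2 : N' % 2 = 1 := by omega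
  obtain ⟨w, hw⟩ : ∃ w, w + z = 2 * c := ⟨2 * c - z, by omega⟩
  have hw1 : 2 ≤ w := by omega
  have hwc : w + 1 ≤ c := by omega
  have hw4 : w % 4 = 2 := by omega
  -- colours of the multiples of N'
  have hmult : ∀ u, 1 ≤ u → u ≤ N' + 1 → T (u * N') = (k : ZMod 2) := by
    intro u h1 h2
    obtain ⟨v, rfl⟩ : ∃ v, u = v + 1 := ⟨u - 1, by omega⟩
    obtain ⟨g, hg⟩ : ∃ g, v + g + 1 = 2 ^ k := ⟨N' - v, by omega⟩
    have e1 : (v + 1) * N' = v * 2 ^ k + g := by
      have : N' = v + g := by omega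
      rw [← hg, this]; ring
    rw [e1, T_block k v g (by omega), T_compl k v g hg]
    linear_combination zmod2 (T v)
  have hlt : ∀ u, u ≤ N' + 1 → u * N' < 2 ^ (2 * k) := by
    intro u hu
    rw [hMM, hN']
    have : u * N' ≤ (N' + 1) * N' := Nat.mul_le_mul_right _ hu
    nlinarith
  have T3 : T 3 = 0 := by
    have := T_odd 1
    rw [TT1] at this
    simpa [zmod2 1] using this
  -- the starting point
  obtain ⟨g, hg⟩ : ∃ g, (w - 1) + g + 1 = 2 ^ k := ⟨2 ^ k - w, by omega⟩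
  have hgw : g + w = 2 ^ k := by omega
  have hn0 : (1 : ℕ) * 2 ^ (2 * k) + (g * 2 ^ k + w) + w * N' = 2 * 2 ^ (2 * k) := by
    rw [hMM]
    have h1 : w * N' + w = w * 2 ^ k := by rw [hN']; ring
    have h2 : g * 2 ^ k + w * 2 ^ k = 2 ^ k * 2 ^ k := by rw [← add_mul, hgw]
    linarith
  have hTn : T (1 * 2 ^ (2 * k) + (g * 2 ^ k + w)) = 1 + (k : ZMod 2) := by
    have hlt1 : g * 2 ^ k + w < 2 ^ (2 * k) := by
      rw [hMM]
      have h2 : g * 2 ^ k + w * 2 ^ k = 2 ^ k * 2 ^ k := by rw [← add_mul, hgw]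
      have h3 : w * 2 ≤ w * 2 ^ k := Nat.mul_le_mul_left w (by omega)
      omega
    rw [T_block (2 * k) _ _ hlt1, T_block k _ _ (by omega), T_compl k (w - 1) g hg, TT1,
      ← D_two w hw4]
    linear_combination zmod2 (T w)
  refine ⟨1 * 2 ^ (2 * k) + (g * 2 ^ k + w), ?_⟩
  intro l hl1 hl2
  rw [hTn]
  have hlc : w + 1 ≤ l * c := le_trans hwc (Nat.le_mul_of_pos_left c hl1)
  obtain ⟨y, hy⟩ : ∃ y, y + w = l * c := ⟨l * c - w, by omega⟩
  have hy1 : 1 ≤ y := by omega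
  have e1 : 1 * 2 ^ (2 * k) + (g * 2 ^ k + w) + l * (c * N') = 2 * 2 ^ (2 * k) + y * N' := by
    have : l * (c * N') = (y + w) * N' := by rw [hy]; ring
    rw [this, ← hn0]; ring
  rw [e1]
  rcases Nat.lt_or_ge q l with hql | hql
  · obtain ⟨i, rfl⟩ := Nat.exists_eq_add_of_lt hql
    have hi : i ≤ 2 := by omega
    obtain ⟨u, hu⟩ : ∃ u, u + w = (i + 1) * c := ⟨(i + 1) * c - w, by
      have : c ≤ (i + 1) * c := Nat.le_mul_of_pos_left c (by omega)
      omega⟩
    have hyu : y = (N' + 2) + u := by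
      have : (q + i + 1) * c = q * c + (i + 1) * c := by ring
      rw [this, hqc] at hy
      omega
    have hu3 : u ≤ N' + 1 := by
      have : (i + 1) * c ≤ 3 * c := Nat.mul_le_mul_right c (by omega)
      omega
    have hcase : u % 2 = 1 ∨ u % 8 = 4 := by
      have hi' : i = 0 ∨ i = 1 ∨ i = 2 := by omega
      rcases hi' with rfl | rfl | rfl
      · left; omega
      · right; omega
      · left; omega
    have hu0 : 1 ≤ u := by omega
    have hpos : 1 ≤ u * N' := Nat.mul_pos hu0 (by omega)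
    have e2 : 2 * 2 ^ (2 * k) + y * N' = 3 * 2 ^ (2 * k) + (u * N' - 1) := by
      rw [hyu, hMM, hN']
      have : (N' + 2 + u) * N' + 1 = (N' + 1) * (N' + 1) + u * N' := by ring
      omega
    rw [e2, T_block (2 * k) _ _ (by have := hlt u hu3; omega), T3, zero_add]
    have hz := hmult u hu0 hu3
    have hD : T (u * N') = T (u * N' - 1) + 1 := by
      rcases hcase with h | h
      · apply D_odd
        rw [Nat.mul_mod, h, hN2]
      · apply D_four
        obtain ⟨a, ha⟩ : ∃ a, u = 8 * a + 4 := ⟨u / 8, by omega⟩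
        obtain ⟨b, hb⟩ : ∃ b, N' = 2 * b + 1 := ⟨N' / 2, by omega⟩
        rw [ha, hb]
        have : (8 * a + 4) * (2 * b + 1) = 8 * (a * (2 * b + 1) + b) + 4 := by ring
        rw [this]; omega
    rw [hz] at hD
    have h2 := zmod2 (1 : ZMod 2)
    linear_combination -hD - h2
  · have hyN : y ≤ N' + 1 := by
      have : l * c ≤ q * c := Nat.mul_le_mul_right c hql
      rw [hqc] at this
      omega
    rw [T_block (2 * k) _ _ (hlt y hyN), hmult y hy1 hyN, TT2]

/-- The second family: `A_1((4^k - 1)/q) = q + 4` for `q ∣ 2 ^ k + 1`. -/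
lemma familyP (k q c : ℕ) (hk : 2 ≤ k) (hq : 5 ≤ q) (hc : 9 ≤ c) (hqc : q * c = 2 ^ k + 1) :
    Asup (c * (2 ^ k - 1)) = ((q + 4 : ℕ) : ℕ∞) := by
  apply Asup_eq
  · intro n
    apply upper (2 * k) q _ n (by omega) hq
    rw [← mul_assoc, hqc, two_mul, pow_add]
    have : 0 < 2 ^ k := by positivity
    obtain ⟨N', hN'⟩ : ∃ N', 2 ^ k = N' + 1 := ⟨2 ^ k - 1, by omega⟩
    rw [hN']
    simp only [Nat.add_sub_cancel]
    have : (N' + 1) * (N' + 1) = (N' + 1 + 1) * N' + 1 := by ring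
    omega
  · obtain ⟨n, hn⟩ := lowerP k q c hk hq hc hqc
    exact ⟨n, fun l h1 h2 => hn l h1 (by omega)⟩

/-- The general upper bound. -/
lemma bound (q d K : ℕ) (hq : 5 ≤ q) (hK : 2 ≤ K)
    (h : q * d + 1 = 2 ^ K ∨ q * d = 2 ^ K + 1) : Asup d ≤ ((q + 4 : ℕ) : ℕ∞) := by
  unfold Asup
  apply iSup_le
  intro n
  have : ∃ l, 1 ≤ l ∧ l ≤ q + 4 ∧ T (n + l * d) ≠ T n := by
    rcases h with h | h
    · exact upper K q d n hK hq (by omega)
    · exact upperP K q d n hK hq h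
  obtain ⟨l, h1, h2, h3⟩ := this
  exact le_trans (A_le h1 h3) (by exact_mod_cast h2)

/-- **MP_956764_co, Q2 for `v = 1`.**
(1) If `q d = 2^K ± 1` with `q ≥ 5` and `K ≥ 2`, then `A_1(d) ≤ q + 4`.
(2) If `q ≥ 5` divides `2^k - 1` with `(2^k - 1)/q ≥ 9`, or `2^k + 1` with `(2^k + 1)/q ≥ 9`, then
`A_1((4^k - 1)/q) = q + 4`.
(3) `A_1(d) = 2` if `d` is a power of two, and `A_1(d) ≥ 4` for every other `d ≥ 1`.
(4) An odd integer `l` is a value of `A_1(d)`, `d ≥ 1`, if and only if `l ≥ 5`. -/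
theorem result :
    (∀ q d K : ℕ, 5 ≤ q → 2 ≤ K → (q * d + 1 = 2 ^ K ∨ q * d = 2 ^ K + 1) →
      Asup d ≤ ((q + 4 : ℕ) : ℕ∞)) ∧
    (∀ q k : ℕ, 5 ≤ q →
      ((q ∣ 2 ^ k - 1 ∧ 9 ≤ (2 ^ k - 1) / q) ∨ (q ∣ 2 ^ k + 1 ∧ 9 ≤ (2 ^ k + 1) / q)) →
      Asup ((4 ^ k - 1) / q) = ((q + 4 : ℕ) : ℕ∞)) ∧
    (∀ i : ℕ, Asup (2 ^ i) = 2) ∧
    (∀ d : ℕ, 1 ≤ d → (∀ i : ℕ, d ≠ 2 ^ i) → 4 ≤ Asup d) ∧
    (∀ l : ℕ, l % 2 = 1 → ((∃ d : ℕ, 1 ≤ d ∧ Asup d = (l : ℕ∞)) ↔ 5 ≤ l)) := by
  have main : ∀ q k : ℕ, 5 ≤ q → q ∣ 2 ^ k - 1 → 9 ≤ (2 ^ k - 1) / q →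
      Asup ((4 ^ k - 1) / q) = ((q + 4 : ℕ) : ℕ∞) ∧ 1 ≤ (4 ^ k - 1) / q := by
    intro q k hq hdvd hm
    obtain ⟨m, hmq⟩ := hdvd
    have hq0 : 0 < q := by omega
    rw [hmq, Nat.mul_div_cancel_left _ hq0] at hm
    have hk : 2 ≤ k := by
      rcases Nat.lt_or_ge k 2 with h | h
      · have : k = 0 ∨ k = 1 := by omega
        rcases this with rfl | rfl
        · simp at hmq; omega
        · simp at hmq
          have : 1 * 1 < q * m := by nlinarith
          omega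
      · exact h
    have h4 : (4 : ℕ) ^ k - 1 = q * (m * (2 ^ k + 1)) := by
      rw [← mul_assoc, ← hmq]
      have : (4 : ℕ) ^ k = 2 ^ k * 2 ^ k := by rw [← mul_pow]; norm_num
      rw [this]
      have h0 : 0 < 2 ^ k := by positivity
      obtain ⟨N', hN'⟩ : ∃ N', 2 ^ k = N' + 1 := ⟨2 ^ k - 1, by omega⟩
      rw [hN']
      simp only [Nat.add_sub_cancel]
      have : (N' + 1) * (N' + 1) = N' * (N' + 1 + 1) + 1 := by ring
      omega
    rw [h4, Nat.mul_div_cancel_left _ hq0]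
    exact ⟨family k q m hk hq hm hmq.symm, Nat.mul_pos (by omega) (by positivity)⟩
  have mainP : ∀ q k : ℕ, 5 ≤ q → q ∣ 2 ^ k + 1 → 9 ≤ (2 ^ k + 1) / q →
      Asup ((4 ^ k - 1) / q) = ((q + 4 : ℕ) : ℕ∞) := by
    intro q k hq hdvd hc
    obtain ⟨c, hcq⟩ := hdvd
    have hq0 : 0 < q := by omega
    rw [hcq, Nat.mul_div_cancel_left _ hq0] at hc
    have hk : 2 ≤ k := by
      rcases Nat.lt_or_ge k 2 with h | h
      · have h45 : 45 ≤ q * c := by nlinarith
        have : k = 0 ∨ k = 1 := by omega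
        rcases this with rfl | rfl
        · simp at hcq; omega
        · simp at hcq; omega
      · exact h
    have h4 : (4 : ℕ) ^ k - 1 = q * (c * (2 ^ k - 1)) := by
      rw [← mul_assoc, ← hcq]
      have : (4 : ℕ) ^ k = 2 ^ k * 2 ^ k := by rw [← mul_pow]; norm_num
      rw [this]
      have h0 : 0 < 2 ^ k := by positivity
      obtain ⟨N', hN'⟩ : ∃ N', 2 ^ k = N' + 1 := ⟨2 ^ k - 1, by omega⟩
      rw [hN']
      simp only [Nat.add_sub_cancel]
      have : (N' + 1) * (N' + 1) = (N' + 1 + 1) * N' + 1 := by ring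
      omega
    rw [h4, Nat.mul_div_cancel_left _ hq0]
    exact familyP k q c hk hq hc hcq.symm
  refine ⟨fun q d K h1 h2 h3 => bound q d K h1 h2 h3, ?_, fun i => ?_, ?_, ?_⟩
  · rintro q k h1 (⟨h2, h3⟩ | ⟨h2, h3⟩)
    · exact (main q k h1 h2 h3).1
    · exact mainP q k h1 h2 h3
  · rw [Asup_two_pow i]; norm_num
  · intro d hd hne
    rcases dichotomy d hd with ⟨⟨i, hi⟩, -⟩ | h
    · exact absurd hi (hne i)
    · exact_mod_cast h
  intro l hl
  constructor
  · rintro ⟨d, hd, hA⟩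
    rcases dichotomy d hd with ⟨-, h⟩ | h
    · rw [hA] at h
      have : l = 2 := by exact_mod_cast h
      omega
    · rw [hA] at h
      have : 4 ≤ l := by exact_mod_cast h
      omega
  intro hl5
  rcases Nat.lt_or_ge l 9 with h9 | h9
  · have : l = 5 ∨ l = 7 := by omega
    rcases this with rfl | rfl
    · exact ⟨19, by norm_num, five⟩
    · exact ⟨37, by norm_num, seven⟩
  · obtain ⟨q, rfl⟩ := Nat.exists_eq_add_of_le h9
    -- l = 9 + q, use q + 5
    have hodd : (q + 5) % 2 = 1 := by omega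
    have hcop : Nat.Coprime 2 (q + 5) := by
      rw [Nat.coprime_two_left]
      exact Nat.odd_iff.2 hodd
    set p := q + 5 with hp
    have hdvd : p ∣ 2 ^ (p.totient * (4 * p)) - 1 := by
      have h1 := Nat.ModEq.pow_totient hcop
      have h2 := h1.pow (4 * p)
      rw [one_pow, ← pow_mul] at h2
      exact (Nat.modEq_iff_dvd' (Nat.one_le_two_pow)).1 h2.symm
    have hbig : 9 * p + 1 ≤ 2 ^ (p.totient * (4 * p)) := by
      have h1 : 4 * p ≤ p.totient * (4 * p) := by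
        have := Nat.totient_pos.2 (show 0 < p by omega)
        exact Nat.le_mul_of_pos_left _ this
      have h2 : 2 ^ (4 * p) ≤ 2 ^ (p.totient * (4 * p)) := Nat.pow_le_pow_right (by norm_num) h1
      have h3 : (2 : ℕ) ^ (4 * p) = (2 ^ p) ^ 4 := by rw [← pow_mul, mul_comm]
      have h4 : p < 2 ^ p := Nat.lt_two_pow_self
      have h5 : (2 ^ p) ^ 4 = 2 ^ p * (2 ^ p) ^ 3 := by ring
      have h6 : 5 ≤ p := by omega
      have h7 : 2 ^ 5 ≤ 2 ^ p := Nat.pow_le_pow_right (by norm_num) h6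
      have h8 : (2 ^ 5) ^ 3 ≤ (2 ^ p) ^ 3 := Nat.pow_le_pow_left h7 3
      have h9' : 2 ^ p * (2 ^ 5) ^ 3 ≤ 2 ^ p * (2 ^ p) ^ 3 := Nat.mul_le_mul_left _ h8
      have h10 : 9 * p + 1 ≤ 2 ^ p * (2 ^ 5) ^ 3 := by
        norm_num
        omega
      calc 9 * p + 1 ≤ 2 ^ p * (2 ^ 5) ^ 3 := h10
        _ ≤ 2 ^ p * (2 ^ p) ^ 3 := h9'
        _ = (2 ^ p) ^ 4 := h5.symm
        _ = 2 ^ (4 * p) := h3.symm
        _ ≤ _ := h2
    have hm : 9 ≤ (2 ^ (p.totient * (4 * p)) - 1) / p := by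
      rw [Nat.le_div_iff_mul_le (by omega)]
      omega
    obtain ⟨hA, hd⟩ := main p _ (by omega) hdvd hm
    exact ⟨_, hd, by rw [hA]; congr 1; omega⟩

end Pool.Agent.Results.MP_956764_co.OddValues
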